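import Pool.Agent.Run7.h182.QS.Iface

/-!
# The lower bound at polynomially large `β`
-/

open MeasureTheory Matrix Filter Topology
open Run7.h4.YM Run7.h4.VS Run7.h182.QS

namespace Run7.h370.QS

set_option linter.unusedSectionVars false
set_option linter.unusedVariables false

noncomputable section

section

variable {N l : ℕ} [NeZero N] [NeZero l] {k : ℕ} (hζ : IsPrimitiveRoot (om N k) N)
  [MeasurableSpace (SU N)] [BorelSpace (SU N)] (μ : Measure (SU N)) [IsProbabilityMeasure μ]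
  [μ.IsHaarMeasure]

include hζ in
/-- bad cells have exponentially small probability, with an explicit constant -/
theorem bad_bound' {δ η : ℝ} (hη0 : 0 < η) (hη2 : 48 * (l : ℝ) ^ 2 * η ^ 2 ≤ δ / 2) {β : ℝ}
    (hβ : 0 ≤ β) (m m' : ℕ) [NeZero m] [NeZero m'] (i j : ℕ) :
    II μ k β (bad (N := N) (m := m) (m' := m') (l := l) (k := k) δ i j) ≤
      (ball μ η ^ (4 * l ^ 2))⁻¹ * Real.exp (-(β * (δ / 2))) * ZZ μ m m' l k β := by
  have hi := inv_inv' μ
  have hl : (0 : ℝ) < l := by exact_mod_cast NeZero.pos l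
  have hb := ball_pos μ hη0
  have hZ := ZZ_pos (m := m) (m' := m') (l := l) μ k β
  have hlow0 := ZZ_lower (l := l) hζ μ (m := m) (m' := m') (η := η) hβ
  have hmom := cell_moment (m := m) (m' := m') (l := l) μ k β
  set y : ℝ := ball μ η ^ (4 * l ^ 2) * Real.exp (-(β * (δ / 2))) with hy
  have hy0 : 0 < y := by positivity
  set M := 2 * m' * (2 * m) with hM
  have hM0 : M ≠ 0 := by
    have h1 := NeZero.pos m
    have h2 := NeZero.pos m'
    positivity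
  have hlow : y ^ M ≤ ZZ μ m m' l k β := by
    refine le_trans (pow_le_pow_left₀ hy0.le ?_ M) hlow0
    rw [hy]
    exact mul_le_mul_of_nonneg_left (Real.exp_le_exp.mpr (neg_le_neg
      (mul_le_mul_of_nonneg_left hη2 hβ))) (by positivity)
  set A := II μ k β (fun U : Cf N m m' l => Real.exp (β * cell k U 0 0)) with hA
  have hA0 : 0 < A := (S0 μ m (2 * m') l k β).I_pos (((bd_cell k 0 0).smul β).exp)
    (fun _ => Real.exp_pos _)
  have h1 : (A / ZZ μ m m' l k β) ^ M ≤ (1 / y) ^ M := by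
    refine hmom.trans ?_
    rw [_root_.one_div_pow]
    exact one_div_le_one_div_of_le (by positivity) hlow
  have h2 : A / ZZ μ m m' l k β ≤ 1 / y :=
    (pow_le_pow_iff_left₀ (by positivity) (by positivity) hM0).mp h1
  -- Markov
  have hind : Measurable (fun r : ℝ => if δ ≤ r then (1 : ℝ) else 0) :=
    Measurable.ite measurableSet_Ici measurable_const measurable_const
  have hF : Bd (fun U : Cf N m m' l => if δ ≤ cell k U 0 0 then (1 : ℝ) else 0) := by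
    refine ⟨hind.comp (bd_cell k 0 0).1, 1, fun U => ?_⟩
    show |(if δ ≤ cell k U 0 0 then (1 : ℝ) else 0)| ≤ 1
    split_ifs <;> simp
  show II μ k β (fun U : Cf N m m' l => if δ ≤ cell k U (i : ZMod (2 * m)) (j : ZMod (2 * m'))
      then (1 : ℝ) else 0) ≤ _
  rw [II_cell μ k β (fun r => if δ ≤ r then (1 : ℝ) else 0) hF i j]
  have h3 : II μ k β (fun U : Cf N m m' l => if δ ≤ cell k U 0 0 then (1 : ℝ) else 0) ≤
      II μ k β (fun U : Cf N m m' l => Real.exp (-(β * δ)) * Real.exp (β * cell k U 0 0)) := by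
    refine II_mono μ k β hF ((((bd_cell k 0 0).smul β).exp).smul _) fun U => ?_
    rw [← Real.exp_add]
    split_ifs with h
    · refine Real.one_le_exp ?_
      nlinarith
    · exact (Real.exp_pos _).le
  rw [II_smul μ k β] at h3
  refine h3.trans ?_
  rw [div_le_iff₀ hZ] at h2
  have h4 : Real.exp (-(β * δ)) * A ≤ Real.exp (-(β * δ)) * (1 / y * ZZ μ m m' l k β) :=
    mul_le_mul_of_nonneg_left h2 (Real.exp_pos _).le
  refine h4.trans (le_of_eq ?_)
  rw [hy, one_div, mul_inv, ← Real.exp_neg, neg_neg]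
  have h5 : Real.exp (-(β * (δ / 2))) = Real.exp (-(β * δ)) * Real.exp (β * (δ / 2)) := by
    rw [← Real.exp_add]; congr 1; ring
  rw [h5]
  ring

end

/-- lower bound of a small ball by an exponential -/
theorem ball_exp {c b R η : ℝ} {n : ℕ} (hc : 0 < c) (hη : 0 < η) (hb : c * η ^ n ≤ b)
    (hR : 1 / η ≤ R) : Real.exp (-(|Real.log c| + n * R)) ≤ b := by
  refine le_trans ?_ hb
  have h1 : -R ≤ Real.log η := by
    have h2 := Real.log_le_sub_one_of_pos (show 0 < 1 / η by positivity)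
    rw [one_div, Real.log_inv] at h2
    rw [one_div] at hR
    linarith
  have h2 : Real.exp (-(|Real.log c|)) ≤ c := by
    rw [← Real.le_log_iff_exp_le hc]
    exact neg_abs_le _
  have h3 : Real.exp (-R) ^ n ≤ η ^ n := by
    refine pow_le_pow_left₀ (Real.exp_pos _).le ?_ n
    rw [← Real.le_log_iff_exp_le hη]
    exact h1
  have h4 : Real.exp (-(|Real.log c| + n * R)) = Real.exp (-(|Real.log c|)) * Real.exp (-R) ^ n := by
    rw [← Real.exp_nat_mul, ← Real.exp_add]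
    congr 1
    ring
  rw [h4]
  exact mul_le_mul h2 h3 (by positivity) hc.le

theorem pow_exp_le {b G X : ℝ} {n : ℕ} (hG : 0 ≤ G) (hb : Real.exp (-G) ≤ b) (hn : (n : ℝ) ≤ X) :
    Real.exp (-(X * G)) ≤ b ^ n := by
  refine le_trans ?_ (pow_le_pow_left₀ (Real.exp_pos _).le hb n)
  rw [← Real.exp_nat_mul]
  refine Real.exp_le_exp.mpr ?_
  nlinarith

theorem t_LO (hKY : S_KY) (hNM : S_NM) (hINS : S_INS2) (hBALL : S_BALL) : S_LO := by
  intro N k _ hN hk hζ P0 Q0 hs _ _ μ _ _ ε hε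
  obtain ⟨C0, q0, hC0, hKy⟩ := hKY N k hζ P0 Q0 hs
  obtain ⟨C1, q1, hC1, hnm⟩ := hNM N k hN hk hζ P0 Q0 hs (ε / 4) (by positivity)
  obtain ⟨cb, hcb, hball⟩ := hBALL N μ
  obtain ⟨e, he⟩ : ∃ e : ℝ, e = min ε 1 := ⟨_, rfl⟩
  have he0 : 0 < e := by rw [he]; exact lt_min hε one_pos
  have heε : e ≤ ε := by rw [he]; exact min_le_left _ _
  have he1 : e ≤ 1 := by rw [he]; exact min_le_right _ _
  obtain ⟨r, hr⟩ : ∃ r : ℕ, r = 2 + q0 + 2 * q1 := ⟨_, rfl⟩
  obtain ⟨K, hK⟩ : ∃ K : ℕ, K = 4000 * N * C0 * C1 ^ 2 := ⟨_, rfl⟩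
  have hNpos : 0 < N := by omega
  have hK1 : 1 ≤ K := by rw [hK]; exact Nat.one_le_iff_ne_zero.mpr (by positivity)
  obtain ⟨W, hW⟩ : ∃ W : ℝ, W = 2 / e ^ 2 * (2 + |Real.log cb| + 20 * (N : ℝ) ^ 2 / e) := ⟨_, rfl⟩
  obtain ⟨Θ, hΘ⟩ : ∃ Θ : ℕ, Θ = ⌈W⌉₊ + 1 := ⟨_, rfl⟩
  have hΘ1 : 1 ≤ Θ := by omega
  have hΘW : W ≤ Θ := by
    rw [hΘ]; push_cast
    have := Nat.le_ceil W
    linarith
  refine ⟨Θ * K ^ 5, 5 * r, Nat.one_le_iff_ne_zero.mpr (by positivity), fun l _ c T hT => ?_⟩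
  obtain ⟨i, a, b, v, hi, ha, hb, haC, hbC, hv, hE⟩ := hnm l c T hT
  refine ⟨i, hi, fun β hβ m m' _ _ hm hm' => ?_⟩
  have hl : 0 < l := Nat.pos_of_ne_zero (NeZero.ne l)
  obtain ⟨D, hD⟩ : ∃ D : ℕ, D = C0 * l ^ q0 := ⟨_, rfl⟩
  have hD1 : 1 ≤ D := by rw [hD]; exact Nat.one_le_iff_ne_zero.mpr (by positivity)
  have hKyD : Ky hζ P0 Q0 l D := by rw [hD]; exact hKy l
  -- the size `X`
  obtain ⟨Xn, hXn⟩ : ∃ Xn : ℕ, Xn = K * l ^ r := ⟨_, rfl⟩
  have hXbig : 4000 * N * l ^ 2 * D * (a * b) ≤ Xn := by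
    calc 4000 * N * l ^ 2 * D * (a * b)
        ≤ 4000 * N * l ^ 2 * D * ((C1 * l ^ q1) * (C1 * l ^ q1)) := by gcongr
      _ = Xn := by rw [hXn, hK, hD, hr]; ring
  have hab1 : 1 ≤ a * b := Nat.one_le_iff_ne_zero.mpr (by positivity)
  have hl1 : 1 ≤ l ^ 2 := Nat.one_le_iff_ne_zero.mpr (by positivity)
  have hX4 : 4000 * (a * b * l ^ 2) ≤ Xn := by
    refine le_trans ?_ hXbig
    calc 4000 * (a * b * l ^ 2) = 4000 * 1 * l ^ 2 * 1 * (a * b) := by ring
      _ ≤ 4000 * N * l ^ 2 * D * (a * b) := by gcongr; omega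
  have hXD : D ≤ Xn := by
    refine le_trans ?_ hXbig
    calc D = 1 * 1 * 1 * D * 1 := by ring
      _ ≤ 4000 * N * l ^ 2 * D * (a * b) := by gcongr <;> omega
  have hXl : l ≤ Xn := by
    have : l ≤ l ^ 2 := Nat.le_self_pow (by norm_num) l
    have h2 : l ^ 2 ≤ a * b * l ^ 2 := Nat.le_mul_of_pos_left _ hab1
    omega
  have habl : a * b ≤ a * b * l ^ 2 := Nat.le_mul_of_pos_right _ hl1
  have hXab : 4000 * (a * b) ≤ Xn := by omega
  have haX : a ≤ Xn := by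
    have : a ≤ a * b := Nat.le_mul_of_pos_right _ hb
    omega
  have hbX : b ≤ Xn := by
    have : b ≤ a * b := Nat.le_mul_of_pos_left _ ha
    omega
  have hX5 : Θ * K ^ 5 * l ^ (5 * r) = Θ * Xn ^ 5 := by
    rw [hXn]; ring
  have hX5' : Xn ≤ Θ * Xn ^ 5 := by
    calc Xn = 1 * Xn ^ 1 := by ring
      _ ≤ Θ * Xn ^ 5 := by
        gcongr
        · omega
        · norm_num
  rw [hX5] at hm hm'
  have hβ' : (Θ : ℝ) * (Xn : ℝ) ^ 5 ≤ β := by
    have : ((Θ * K ^ 5 : ℕ) : ℝ) * (l : ℝ) ^ (5 * r) = (Θ : ℝ) * (Xn : ℝ) ^ 5 := by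
      have := congrArg (Nat.cast : ℕ → ℝ) hX5
      push_cast at this ⊢
      exact this
    rw [← this]; exact hβ
  obtain ⟨X, hX⟩ : ∃ X : ℝ, X = (Xn : ℝ) := ⟨_, rfl⟩
  rw [← hX] at hβ'
  have hX4000 : (4000 : ℝ) ≤ X := by
    rw [hX]
    have : 4000 ≤ Xn := by omega
    exact_mod_cast this
  have hX0 : 0 < X := by linarith
  have hX1 : 1 ≤ X := by linarith
  have hDX : (D : ℝ) ≤ X := by rw [hX]; exact_mod_cast hXD
  have hlX : (l : ℝ) ≤ X := by rw [hX]; exact_mod_cast hXl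
  have habX : 4000 * ((a : ℝ) * b) ≤ X := by rw [hX]; exact_mod_cast hXab
  have hbigX : 4000 * (N : ℝ) * (l : ℝ) ^ 2 * D * (a * b) ≤ X := by rw [hX]; exact_mod_cast hXbig
  have hD0 : (1 : ℝ) ≤ D := by exact_mod_cast hD1
  have hl0 : (0 : ℝ) < l := by exact_mod_cast hl
  have hN0 : (1 : ℝ) ≤ N := by exact_mod_cast hNpos
  have ha0 : (1 : ℝ) ≤ a := by exact_mod_cast ha
  have hb0 : (1 : ℝ) ≤ b := by exact_mod_cast hb
  -- the parameters
  obtain ⟨ρ, hρ⟩ : ∃ ρ : ℝ, ρ = e / X := ⟨_, rfl⟩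
  have hρ0 : 0 < ρ := by rw [hρ]; positivity
  have hρX : ρ * X = e := by rw [hρ]; field_simp
  have hρ1 : ρ ≤ 1 := by
    rw [hρ, div_le_one hX0]; linarith
  obtain ⟨δ, hδ⟩ : ∃ δ : ℝ, δ = ρ ^ 2 := ⟨_, rfl⟩
  have hδ0 : 0 < δ := by rw [hδ]; positivity
  have hsq : Real.sqrt δ = ρ := by rw [hδ]; exact Real.sqrt_sq hρ0.le
  have hδD : δ ≤ (D : ℝ)⁻¹ := by
    rw [le_inv_comm₀ hδ0 (by linarith)]
    refine hDX.trans ?_
    rw [le_inv_comm₀ hX0 hδ0, hδ, inv_eq_one_div, le_div_iff₀ hX0]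
    calc ρ ^ 2 * X = ρ * (ρ * X) := by ring
      _ = ρ * e := by rw [hρX]
      _ ≤ 1 * 1 := mul_le_mul hρ1 he1 he0.le zero_le_one
      _ = 1 := by ring
  obtain ⟨η, hη⟩ : ∃ η : ℝ, η = ρ / (10 * X) := ⟨_, rfl⟩
  have hη0 : 0 < η := by rw [hη]; positivity
  have hη1 : η ≤ 1 := by
    rw [hη, div_le_one (by positivity)]; linarith
  have hη2 : 48 * (l : ℝ) ^ 2 * η ^ 2 ≤ δ / 2 := by
    have h1 : η * (10 * X) = ρ := by rw [hη]; field_simp
    rw [hδ, ← h1]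
    have h2 : (l : ℝ) ^ 2 ≤ X ^ 2 := pow_le_pow_left₀ hl0.le hlX 2
    have h3 : 0 < η ^ 2 := by positivity
    nlinarith
  obtain ⟨G, hG⟩ : ∃ G : ℝ, G = |Real.log cb| + ((2 * N ^ 2 : ℕ) : ℝ) * (10 * X ^ 2 / e) :=
    ⟨_, rfl⟩
  have hG0 : 0 ≤ G := by rw [hG]; positivity
  have hbη : Real.exp (-G) ≤ ball μ η := by
    rw [hG]
    refine ball_exp hcb hη0 (hball η hη0 hη1) (le_of_eq ?_)
    rw [hη, hρ]; field_simp
  have hbρ : Real.exp (-G) ≤ ball μ ρ := by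
    rw [hG]
    refine ball_exp hcb hρ0 (hball ρ hρ0 hρ1) ?_
    rw [hρ, one_div_div]
    refine div_le_div_of_nonneg_right ?_ he0.le
    nlinarith
  have hy : Real.exp (-(X * G)) ≤ ball μ ρ ^ (4 * a * b * l ^ 2) :=
    pow_exp_le hG0 hbρ (by
      rw [hX]
      have : 4 * a * b * l ^ 2 ≤ Xn := by
        have e1 : 4 * a * b * l ^ 2 = 4 * (a * b * l ^ 2) := by ring
        omega
      exact_mod_cast this)
  have hyη : Real.exp (-(X * G)) ≤ ball μ η ^ (4 * l ^ 2) :=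
    pow_exp_le hG0 hbη (by
      rw [hX]
      have : 4 * l ^ 2 ≤ Xn := by
        have h2 : l ^ 2 ≤ a * b * l ^ 2 := Nat.le_mul_of_pos_left _ hab1
        omega
      exact_mod_cast this)
  -- the condition for `β`
  have hβ0 : 0 ≤ β := le_trans (by positivity) hβ'
  have hcond : X + X * G ≤ β * (δ / 2) := by
    have h1 : W * X ^ 5 ≤ β := le_trans (mul_le_mul_of_nonneg_right hΘW (by positivity)) hβ'
    have h2 : W * X ^ 5 * (δ / 2) ≤ β * (δ / 2) := mul_le_mul_of_nonneg_right h1 (by positivity)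
    refine le_trans ?_ h2
    have h3 : W * X ^ 5 * (δ / 2) = (2 + |Real.log cb| + 20 * (N : ℝ) ^ 2 / e) * X ^ 3 := by
      rw [hW, hδ, hρ]; field_simp
    rw [h3, hG]
    push_cast
    have h4 : X * (2 * (N : ℝ) ^ 2 * (10 * X ^ 2 / e)) = 20 * (N : ℝ) ^ 2 / e * X ^ 3 := by
      field_simp; ring
    have h5 : X ≤ X ^ 3 := by
      calc X = X ^ 1 := by ring
        _ ≤ X ^ 3 := pow_le_pow_right₀ hX1 (by norm_num)
    have h6 : X * |Real.log cb| ≤ |Real.log cb| * X ^ 3 := by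
      have := abs_nonneg (Real.log cb)
      nlinarith
    nlinarith
  have hδε : δ / 2 ≤ ε / 4 := by
    have h1 : δ = ρ * ρ := by rw [hδ]; ring
    have h2 : ρ ≤ e / 4000 := by
      rw [hρ]
      exact div_le_div_of_nonneg_left he0.le (by norm_num) hX4000
    have h3 : ρ * ρ ≤ ρ * 1 := mul_le_mul_of_nonneg_left hρ1 hρ0.le
    linarith
  have hinv := inv_inv' μ
  have hZ := ZZ_pos (N := N) (m := m) (m' := m') (l := l) μ k β
  have h1 := Zi_ge (m := m) (m' := m') hζ μ ha hb (by omega) (by omega) (δ := δ) (i := i) hβ0 hρ0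
    (E0 := T + ε / 2) (fun u hu => by
      obtain ⟨w, hw1, hw2⟩ := hINS N k hζ P0 Q0 l D hD1 hKyD i a b v ha hb hv δ hδ0 hδD u hu
      refine ⟨w, hw1, ?_⟩
      rw [hsq] at hw2
      have e1 : 1000 * (N : ℝ) * (l : ℝ) ^ 2 * D * (a * b) * ρ ≤ e / 4 := by
        have : 1000 * (N : ℝ) * (l : ℝ) ^ 2 * D * (a * b) ≤ X / 4 := by linarith
        calc 1000 * (N : ℝ) * (l : ℝ) ^ 2 * D * (a * b) * ρ ≤ X / 4 * ρ :=
              mul_le_mul_of_nonneg_right this hρ0.le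
          _ = (ρ * X) / 4 := by ring
          _ = e / 4 := by rw [hρX]
      linarith)
  have h2 := gdb_low (m := m) (m' := m') μ (k := k) (l := l) (δ := δ)
    (p := (ball μ η ^ (4 * l ^ 2))⁻¹ * Real.exp (-(β * (δ / 2)))) (β := β) a b
    (fun i j => bad_bound' hζ μ hη0 hη2 hβ0 m m' i j)
  have h3 : (a : ℝ) * b * ((ball μ η ^ (4 * l ^ 2))⁻¹ * Real.exp (-(β * (δ / 2)))) ≤ 1 / 2 := by
    have h4 : (ball μ η ^ (4 * l ^ 2))⁻¹ ≤ Real.exp (X * G) := by
      rw [← neg_neg (X * G), Real.exp_neg]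
      exact inv_anti₀ (Real.exp_pos _) hyη
    have h5 : (ball μ η ^ (4 * l ^ 2))⁻¹ * Real.exp (-(β * (δ / 2))) ≤ Real.exp (-X) := by
      calc (ball μ η ^ (4 * l ^ 2))⁻¹ * Real.exp (-(β * (δ / 2)))
          ≤ Real.exp (X * G) * Real.exp (-(β * (δ / 2))) :=
            mul_le_mul_of_nonneg_right h4 (Real.exp_pos _).le
        _ = Real.exp (X * G - β * (δ / 2)) := by rw [← Real.exp_add]; congr 1
        _ ≤ Real.exp (-X) := Real.exp_le_exp.mpr (by linarith)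
    have h6 : (a : ℝ) * b ≤ Real.exp X / 2 := by
      have := Real.add_one_le_exp X
      linarith
    calc (a : ℝ) * b * ((ball μ η ^ (4 * l ^ 2))⁻¹ * Real.exp (-(β * (δ / 2))))
        ≤ Real.exp X / 2 * Real.exp (-X) := by
          refine mul_le_mul h6 h5 ?_ (by positivity)
          have := ball_pos μ hη0
          positivity
      _ = 1 / 2 := by
          rw [Real.exp_neg]
          have := Real.exp_pos X
          field_simp
  have h4 : ZZ μ m m' l k β / 2 ≤ II μ k β (gdb (N := N) (m := m) (m' := m') (l := l) k a b δ) := by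
    refine le_trans ?_ h2
    have := mul_le_mul_of_nonneg_left h3 hZ.le
    linarith
  refine le_trans ?_ h1
  obtain ⟨y, hy'⟩ : ∃ y : ℝ, y = ball μ ρ ^ (4 * a * b * l ^ 2) := ⟨_, rfl⟩
  rw [← hy'] at hy ⊢
  have hy0 : 0 < y := lt_of_lt_of_le (Real.exp_pos _) hy
  have hint : (a : ℝ) * (b * (48 * (l : ℝ) ^ 2 * N * ρ)) ≤ ε / 4 := by
    have e1 : (a : ℝ) * (b * (48 * (l : ℝ) ^ 2 * N)) ≤ X / 4 := by
      have e2 : (a : ℝ) * (b * (48 * (l : ℝ) ^ 2 * N)) ≤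
          1000 * (N : ℝ) * (l : ℝ) ^ 2 * D * (a * b) := by
        have e3 : 0 ≤ (N : ℝ) * (l : ℝ) ^ 2 * (a * b) := by positivity
        nlinarith
      linarith
    calc (a : ℝ) * (b * (48 * (l : ℝ) ^ 2 * N * ρ)) = (a : ℝ) * (b * (48 * (l : ℝ) ^ 2 * N)) * ρ := by
          ring
      _ ≤ X / 4 * ρ := mul_le_mul_of_nonneg_right e1 hρ0.le
      _ = (ρ * X) / 4 := by ring
      _ ≤ ε / 4 := by rw [hρX]; linarith
  have h6 : 2 ≤ y * Real.exp (β * (ε / 4)) := by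
    have e1 : Real.exp (X + X * G) ≤ Real.exp (β * (ε / 4)) :=
      Real.exp_le_exp.mpr (hcond.trans (mul_le_mul_of_nonneg_left hδε hβ0))
    have e2 := Real.add_one_le_exp X
    calc (2 : ℝ) ≤ Real.exp X := by linarith
      _ = Real.exp (-(X * G)) * Real.exp (X + X * G) := by
          rw [← Real.exp_add]; congr 1; ring
      _ ≤ y * Real.exp (β * (ε / 4)) := mul_le_mul hy e1 (Real.exp_pos _).le hy0.le
  have h7 : Real.exp (-(β * (T + ε))) * Real.exp (β * (ε / 4)) ≤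
      Real.exp (-(β * (T + ε / 2 + a * (b * (48 * (l : ℝ) ^ 2 * N * ρ))))) := by
    rw [← Real.exp_add]
    refine Real.exp_le_exp.mpr ?_
    nlinarith
  have hA := Real.exp_pos (-(β * (T + ε)))
  calc Real.exp (-(β * (T + ε))) * ZZ μ m m' l k β
      = 2 * Real.exp (-(β * (T + ε))) * (ZZ μ m m' l k β / 2) := by ring
    _ ≤ (y * Real.exp (β * (ε / 4))) * Real.exp (-(β * (T + ε))) *
        (ZZ μ m m' l k β / 2) := by
        refine mul_le_mul_of_nonneg_right (mul_le_mul_of_nonneg_right h6 hA.le) (by positivity)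
    _ = y * (Real.exp (-(β * (T + ε))) * Real.exp (β * (ε / 4))) *
        (ZZ μ m m' l k β / 2) := by ring
    _ ≤ y * Real.exp (-(β * (T + ε / 2 + a * (b * (48 * (l : ℝ) ^ 2 * N * ρ))))) *
        (ZZ μ m m' l k β / 2) :=
        mul_le_mul_of_nonneg_right (mul_le_mul_of_nonneg_left h7 hy0.le) (by positivity)
    _ ≤ _ := mul_le_mul_of_nonneg_left h4 (by positivity)

end

end Run7.h370.QS
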